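import Mathlib

/-!
# MP_55b43c_co, Q1: the cheating robot cop number is not monotone under connected subgraphs

There is a connected graph `G` with 7 vertices and 11 edges with `c_cr(G) ≤ 2`, such that deleting
one edge of `G` gives a connected graph `H` with `c_cr(H) ≥ 3`.
-/

namespace Pool.Agent.Results.MP_55b43c_co.EdgeDeletion

variable {V : Type*}

/-- A step from `u` to `v`: stay, or move along an edge. -/
def Step (G : SimpleGraph V) (u v : V) : Prop := u = v ∨ G.Adj u v

/-- In a round in which the cops move from `c` to `c'` and the robot then moves from `r` to `r'`,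
the robot is captured: at the end it shares a vertex with a cop, or it traverses an edge that some
cop traversed in the same round. -/
def Captured {k : ℕ} (c c' : Fin k → V) (r r' : V) : Prop :=
  (∃ i, c' i = r') ∨ (r ≠ r' ∧ ∃ i, (c i = r ∧ c' i = r') ∨ (c i = r' ∧ c' i = r))

/-- With the cops at `c` and the robot at `r`, the cops can force the capture within `m` rounds. -/
def CatchWithin (G : SimpleGraph V) (k : ℕ) : ℕ → (Fin k → V) → V → Prop
  | 0, _, _ => False
  | m + 1, c, r => ∃ c' : Fin k → V, (∀ i, Step G (c i) (c' i)) ∧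
      ∀ r', Step G r r' → Captured c c' r r' ∨ CatchWithin G k m c' r'

/-- The `k` cops have a winning strategy: they choose an initial position `c` such that for every
initial vertex `r` of the robot the capture can be forced. -/
def CopsWin (G : SimpleGraph V) (k : ℕ) : Prop :=
  ∃ c : Fin k → V, ∀ r : V, ∃ m, CatchWithin G k m c r

/-- The cheating robot cop number. -/
noncomputable def cheatingRobotCopNumber (G : SimpleGraph V) : ℕ := sInf {k : ℕ | CopsWin G k}

/-! ### General facts -/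

theorem catch_surj {G : SimpleGraph V} {k l : ℕ} (f : Fin l → Fin k)
    (hf : Function.Surjective f) (m : ℕ) : ∀ (c : Fin k → V) (r : V),
      CatchWithin G k m c r → CatchWithin G l m (c ∘ f) r := by
  induction m with
  | zero => exact fun _ _ h => h
  | succ m ih =>
    rintro c r ⟨c', hstep, h⟩
    refine ⟨c' ∘ f, fun i => hstep (f i), fun r' hr' => ?_⟩
    rcases h r' hr' with hc | hc
    · left
      rcases hc with ⟨i, hi⟩ | ⟨hne, i, hi⟩
      · obtain ⟨j, rfl⟩ := hf i
        exact Or.inl ⟨j, hi⟩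
      · obtain ⟨j, rfl⟩ := hf i
        exact Or.inr ⟨hne, j, hi⟩
    · exact Or.inr (ih c' r' hc)

theorem not_catch_zero (G : SimpleGraph V) (m : ℕ) : ∀ (c : Fin 0 → V) (r : V),
    ¬ CatchWithin G 0 m c r := by
  induction m with
  | zero => exact fun _ _ h => h
  | succ m ih =>
    rintro c r ⟨c', -, h⟩
    rcases h r (Or.inl rfl) with (⟨i, -⟩ | ⟨-, i, -⟩) | hc
    · exact i.elim0
    · exact i.elim0
    · exact ih c' r hc

theorem copsWin_univ [Fintype V] (G : SimpleGraph V) : CopsWin G (Fintype.card V) := by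
  refine ⟨(Fintype.equivFin V).symm, fun r => ⟨1, (Fintype.equivFin V).symm, fun i => Or.inl rfl,
    fun r' _ => Or.inl (Or.inl ⟨Fintype.equivFin V r', by simp⟩)⟩⟩

/-! ### The two graphs -/

/-- The rows of the adjacency matrix of `G`, as bit masks. -/
def rowG (a : Fin 7) : ℕ := (![80, 104, 56, 70, 37, 86, 43] : Fin 7 → ℕ) a

/-- The rows of the adjacency matrix of `H`, as bit masks. -/
def rowH (a : Fin 7) : ℕ := (![80, 104, 56, 70, 37, 22, 11] : Fin 7 → ℕ) a

/-- The graph `G` with the edges `04, 06, 13, 15, 16, 23, 24, 25, 36, 45, 56`. -/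
def graphG : SimpleGraph (Fin 7) where
  Adj a b := (rowG a).testBit b = true
  symm := ⟨by decide⟩
  loopless := ⟨by decide⟩

/-- The graph `H`, obtained from `G` by deleting the edge `56`. -/
def graphH : SimpleGraph (Fin 7) where
  Adj a b := (rowH a).testBit b = true
  symm := ⟨by decide⟩
  loopless := ⟨by decide⟩

instance : DecidableRel graphG.Adj := fun _ _ => inferInstanceAs (Decidable (_ = _))
instance : DecidableRel graphH.Adj := fun _ _ => inferInstanceAs (Decidable (_ = _))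
instance (a b : Fin 7) : Decidable (Step graphG a b) := inferInstanceAs (Decidable (_ ∨ _))
instance (a b : Fin 7) : Decidable (Step graphH a b) := inferInstanceAs (Decidable (_ ∨ _))

theorem connected_of {K : SimpleGraph (Fin 7)} (h : ∀ v, ∃ a b, Step K 0 a ∧ Step K a b ∧
    Step K b v) : K.Connected := by
  have hs : ∀ a b, Step K a b → K.Reachable a b := by
    rintro a b (rfl | h)
    · exact SimpleGraph.Reachable.refl _
    · exact h.reachable
  have h0 : ∀ v, K.Reachable 0 v := by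
    intro v
    obtain ⟨a, b, h1, h2, h3⟩ := h v
    exact ((hs _ _ h1).trans (hs _ _ h2)).trans (hs _ _ h3)
  exact ⟨fun u v => (h0 u).symm.trans (h0 v)⟩

theorem connG : graphG.Connected := connected_of (by decide +kernel)
theorem connH : graphH.Connected := connected_of (by decide +kernel)

theorem le_HG : graphH ≤ graphG := by
  intro a b
  revert a b
  decide +kernel

/-! ### Two cops win on `G` -/

/-- The number of rounds needed by two cops on `G`. -/
def rankTable : Array ℕ :=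
  #[2, 6, 6, 6, 6, 6, 6, 2, 6, 5, 4, 5, 5, 6, 2, 6, 5, 6, 5, 6, 6, 2, 6, 6, 5, 6, 6, 6, 1, 6, 5,
  6, 5, 6, 6, 2, 5, 5, 5, 5, 6, 6, 1, 6, 5, 5, 5, 6, 6, 2, 6, 5, 4, 5, 5, 6, 4, 6, 4, 4, 4, 5,
  5, 2, 6, 4, 6, 2, 6, 5, 3, 6, 3, 4, 3, 5, 6, 1, 6, 4, 6, 3, 6, 5, 2, 5, 4, 4, 3, 5, 5, 4, 5,
  4, 4, 4, 5, 5, 2, 6, 5, 6, 5, 6, 6, 2, 6, 4, 6, 2, 6, 5, 6, 6, 4, 6, 2, 6, 6, 2, 6, 3, 6, 3,
  6, 6, 6, 6, 4, 6, 2, 6, 6, 2, 6, 4, 6, 2, 6, 6, 1, 5, 4, 6, 2, 6, 6, 2, 6, 6, 5, 6, 6, 6, 3,
  6, 3, 4, 3, 5, 6, 2, 6, 3, 6, 3, 6, 6, 3, 6, 6, 5, 6, 6, 6, 1, 6, 3, 6, 3, 6, 6, 2, 5, 3, 5,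
  3, 6, 5, 3, 6, 3, 4, 3, 5, 6, 1, 6, 5, 6, 5, 6, 6, 1, 6, 4, 6, 3, 6, 5, 6, 6, 4, 6, 2, 6, 6,
  1, 6, 3, 6, 3, 6, 6, 6, 6, 6, 6, 3, 6, 6, 1, 6, 5, 6, 3, 6, 6, 1, 5, 4, 6, 3, 6, 6, 2, 5, 5,
  5, 5, 6, 6, 2, 5, 4, 4, 3, 5, 5, 2, 6, 4, 6, 2, 6, 6, 2, 5, 3, 5, 3, 6, 5, 1, 6, 5, 6, 3, 6,
  6, 2, 5, 5, 5, 3, 6, 5, 1, 5, 4, 4, 3, 5, 5, 1, 6, 5, 5, 5, 6, 6, 4, 5, 4, 4, 4, 5, 5, 1, 5,
  4, 6, 2, 6, 6, 3, 6, 3, 4, 3, 5, 6, 1, 5, 4, 6, 3, 6, 6, 1, 5, 4, 4, 3, 5, 5, 4, 5, 4, 4, 4,
  5, 6]

/-- The number of rounds needed with cops at `a`, `b` and the robot at `r`. -/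
def rank (a b r : Fin 7) : ℕ := rankTable[(7 * (7 * (a : ℕ) + b) + r : ℕ)]!

/-- `Captured` for two cops, as a decidable condition. -/
def cap (a b a' b' r r' : Fin 7) : Bool :=
  a' == r' || b' == r' || (r != r' && ((a == r && a' == r') || (a == r' && a' == r) ||
    (b == r && b' == r') || (b == r' && b' == r)))

theorem captured_of_cap {c c' : Fin 2 → Fin 7} {r r' : Fin 7}
    (h : cap (c 0) (c 1) (c' 0) (c' 1) r r' = true) : Captured c c' r r' := by
  unfold cap at h
  simp only [Bool.or_eq_true, Bool.and_eq_true, beq_iff_eq, bne_iff_ne] at h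
  rcases h with (h | h) | ⟨hne, ((h | h) | h) | h⟩
  · exact Or.inl ⟨0, h⟩
  · exact Or.inl ⟨1, h⟩
  · exact Or.inr ⟨hne, 0, Or.inl h⟩
  · exact Or.inr ⟨hne, 0, Or.inr h⟩
  · exact Or.inr ⟨hne, 1, Or.inl h⟩
  · exact Or.inr ⟨hne, 1, Or.inr h⟩

theorem cap_of_captured {c c' : Fin 2 → Fin 7} {r r' : Fin 7} (h : Captured c c' r r') :
    cap (c 0) (c 1) (c' 0) (c' 1) r r' = true := by
  unfold cap
  simp only [Bool.or_eq_true, Bool.and_eq_true, beq_iff_eq, bne_iff_ne]
  rcases h with ⟨i, hi⟩ | ⟨hne, i, hi⟩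
  · fin_cases i
    · exact Or.inl (Or.inl hi)
    · exact Or.inl (Or.inr hi)
  · right
    refine ⟨hne, ?_⟩
    fin_cases i
    · rcases hi with hi | hi
      · exact Or.inl (Or.inl (Or.inl hi))
      · exact Or.inl (Or.inl (Or.inr hi))
    · rcases hi with hi | hi
      · exact Or.inl (Or.inr hi)
      · exact Or.inr hi

/-- The closed neighbourhoods in `G`. -/
def nbG (a : Fin 7) : List (Fin 7) := (List.finRange 7).filter (fun b => decide (Step graphG a b))

/-- The closed neighbourhoods in `H`. -/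
def nbH (a : Fin 7) : List (Fin 7) := (List.finRange 7).filter (fun b => decide (Step graphH a b))

theorem mem_nbG {a b : Fin 7} : b ∈ nbG a ↔ Step graphG a b := by simp [nbG]
theorem mem_nbH {a b : Fin 7} : b ∈ nbH a ↔ Step graphH a b := by simp [nbH]

theorem rank_table : ∀ a b r : Fin 7, 1 ≤ rank a b r ∧
    ∃ a' ∈ nbG a, ∃ b' ∈ nbG b, ∀ r' ∈ nbG r,
      cap a b a' b' r r' = true ∨ rank a' b' r' < rank a b r := by decide +kernel

theorem catchG (m : ℕ) : ∀ (c : Fin 2 → Fin 7) (r : Fin 7), rank (c 0) (c 1) r ≤ m →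
    CatchWithin graphG 2 m c r := by
  induction m with
  | zero =>
    intro c r h
    have := (rank_table (c 0) (c 1) r).1
    omega
  | succ m ih =>
    intro c r h
    obtain ⟨-, a', ha', b', hb', hall⟩ := rank_table (c 0) (c 1) r
    refine ⟨![a', b'], ?_, fun r' hr' => ?_⟩
    · intro i
      fin_cases i
      · exact mem_nbG.mp ha'
      · exact mem_nbG.mp hb'
    · rcases hall r' (mem_nbG.mpr hr') with hc | hc
      · exact Or.inl (captured_of_cap hc)
      · right
        apply ih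
        simp only [Matrix.cons_val_zero, Matrix.cons_val_one]
        omega

theorem copsWinG : CopsWin graphG 2 := by
  refine ⟨fun _ => 0, fun r => ?_⟩
  obtain ⟨m, hm⟩ : ∃ m, rank 0 0 r ≤ m := ⟨_, le_rfl⟩
  exact ⟨m, catchG m (fun _ => 0) r hm⟩

/-! ### Two cops do not win on `H` -/

/-- The positions from which the robot escapes two cops on `H`, as a bit mask. -/
def safeMask : ℕ := 17916855767590385207566526965630664210528106318598126967233587612403362729736638346209438456816905207678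

/-- The robot is safe at `r` when the cops are at `a` and `b`. -/
def safe (a b r : Fin 7) : Bool := safeMask.testBit (7 * (7 * (a : ℕ) + b) + r)

theorem safe_table : ∀ a b r : Fin 7, safe a b r = true → ∀ a' ∈ nbH a, ∀ b' ∈ nbH b,
    ∃ r' ∈ nbH r, cap a b a' b' r r' = false ∧ safe a' b' r' = true := by decide +kernel

theorem safe_start : ∀ a b : Fin 7, ∃ r : Fin 7, a ≠ r ∧ b ≠ r ∧ safe a b r = true := by
  decide +kernel

theorem not_catchH (m : ℕ) : ∀ (c : Fin 2 → Fin 7) (r : Fin 7), safe (c 0) (c 1) r = true →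
    ¬ CatchWithin graphH 2 m c r := by
  induction m with
  | zero => exact fun _ _ _ h => h
  | succ m ih =>
    rintro c r hs ⟨c', hstep, h⟩
    obtain ⟨r', hr', hcap, hs'⟩ := safe_table (c 0) (c 1) r hs (c' 0) (mem_nbH.mpr (hstep 0))
      (c' 1) (mem_nbH.mpr (hstep 1))
    rcases h r' (mem_nbH.mp hr') with hc | hc
    · have := cap_of_captured hc
      rw [hcap] at this
      exact absurd this (by decide)
    · exact ih c' r' hs' hc

theorem not_copsWinH {k : ℕ} (hk : k ≤ 2) : ¬ CopsWin graphH k := by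
  rintro ⟨c, hc⟩
  rcases Nat.eq_zero_or_pos k with rfl | hpos
  · obtain ⟨m, hm⟩ := hc 0
    exact not_catch_zero _ m c 0 hm
  · have hsurj : ∃ f : Fin 2 → Fin k, Function.Surjective f := by
      rcases (show k = 1 ∨ k = 2 by omega) with rfl | rfl
      · exact ⟨fun _ => 0, fun b => ⟨0, Subsingleton.elim _ _⟩⟩
      · exact ⟨id, Function.surjective_id⟩
    obtain ⟨f, hf⟩ := hsurj
    obtain ⟨r, -, -, hr⟩ := safe_start ((c ∘ f) 0) ((c ∘ f) 1)
    obtain ⟨m, hm⟩ := hc r
    exact not_catchH m (c ∘ f) r hr (catch_surj f hf m c r hm)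

/-- **Q1 of MP_55b43c_co is false.**  `G` is a connected graph, `H` is a connected (spanning)
subgraph of `G`, and `c_cr(G) ≤ 2 < 3 ≤ c_cr(H)`. -/
theorem result :
    (graphG.Connected ∧ graphH.Connected ∧ graphH ≤ graphG ∧
      cheatingRobotCopNumber graphG ≤ 2 ∧ 3 ≤ cheatingRobotCopNumber graphH) ∧
    ¬ (∀ (V : Type) (_ : Fintype V) (G H : SimpleGraph V), G.Connected → H.Connected → H ≤ G →
          cheatingRobotCopNumber H ≤ cheatingRobotCopNumber G) := by
  have h1 : cheatingRobotCopNumber graphG ≤ 2 := Nat.sInf_le copsWinG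
  have h2 : 3 ≤ cheatingRobotCopNumber graphH := by
    have hne : {k : ℕ | CopsWin graphH k}.Nonempty := ⟨_, copsWin_univ graphH⟩
    unfold cheatingRobotCopNumber
    apply le_csInf hne
    intro k hk
    have hk' : CopsWin graphH k := hk
    by_contra hlt
    exact not_copsWinH (by omega) hk'
  refine ⟨⟨connG, connH, le_HG, h1, h2⟩, fun h => ?_⟩
  have h3 := h (Fin 7) inferInstance graphG graphH connG connH le_HG
  omega

end Pool.Agent.Results.MP_55b43c_co.EdgeDeletion
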